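import Pool.Agent.H27.TM.TargetsL
import Pool.Agent.H31.SW.TargetsL

/-!
# The twelfth moment of Hecke L-functions: (LS) the separation of the variables
-/

set_option autoImplicit false

open MeasureTheory Set Filter Complex

namespace Pool.Agent.H39.TMB.LS

open Pool.Agent.H29.DW (dg Rl lf)
open Pool.Agent.H31.SW (EE itg FF HD DB DS dif Pf GG G2 ind)
open Pool.Agent.H27.TM

private lemma EE_add (x y : ℂ) : EE (x + y) = EE x * EE y := by
  unfold EE
  rw [← Complex.exp_add]
  congr 1
  rw [Complex.add_re]
  push_cast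
  ring

private lemma EE_conj (x : ℂ) : (starRingEnd ℂ) (EE x) = EE (-x) := by
  unfold EE
  rw [← Complex.exp_conj]
  congr 1
  simp

private lemma norm_EE (x : ℂ) : ‖EE x‖ = 1 := by
  unfold EE
  rw [show (-((x.re : ℝ) : ℂ) * I) = ((-x.re : ℝ) : ℂ) * I by push_cast; ring]
  exact Complex.norm_exp_ofReal_mul_I _

private lemma cont_EE : Continuous EE := by
  unfold EE
  fun_prop

private lemma meas_S4 : MeasurableSet S4 := by
  have h1 : IsClosed S4 := by
    have e : S4 = {s : ℂ | |s.re| ≤ 4} ∩ {s : ℂ | |s.im| ≤ 4} := by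
      ext s
      rfl
    rw [e]
    exact (isClosed_le (by fun_prop) (by fun_prop)).inter
      (isClosed_le (by fun_prop) (by fun_prop))
  exact h1.measurableSet

private lemma fin_S4 : (volume : Measure ℂ) S4 < ⊤ := by
  have h : S4 ⊆ Metric.closedBall (0 : ℂ) 8 := by
    intro s hs
    rw [mem_closedBall_zero_iff]
    have h1 := Complex.norm_le_abs_re_add_abs_im s
    have h2 : |s.re| ≤ 4 := hs.1
    have h3 : |s.im| ≤ 4 := hs.2
    linarith
  exact lt_of_le_of_lt (measure_mono h) measure_closedBall_lt_top

private lemma fub {X : Type} [MeasurableSpace X] (μ : Measure X) [SFinite μ] (ι : X → ℂ)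
    (hι : Measurable ι) (hfin : μ (ι ⁻¹' Metric.closedBall 0 3) < ⊤) (E k : ℂ → ℂ)
    (hE : Measurable E) (hE1 : ∀ z, ‖E z‖ ≤ 1) (hk : Measurable k) (hk1 : ∀ z, ‖k z‖ ≤ 1)
    (Q : ℂ → ℂ → ℂ) (hQ : Continuous (fun z : ℂ × ℂ => Q z.1 z.2)) (C : ℝ)
    (hQb : ∀ s z, ‖Q s z‖ ≤ C) (hQ0 : ∀ s z, 3 < ‖z‖ → Q s z = 0) :
    ∫ x, (E (ι x) * ∫ s in S4, k s * Q s (ι x)) ∂μ =
      ∫ s in S4, k s * ∫ x, E (ι x) * Q s (ι x) ∂μ := by
  have : IsFiniteMeasure ((volume : Measure ℂ).restrict S4) :=
    ⟨by rw [Measure.restrict_apply_univ]; exact fin_S4⟩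
  have h : Integrable (Function.uncurry fun (x : X) (s : ℂ) => E (ι x) * (k s * Q s (ι x)))
      (μ.prod ((volume : Measure ℂ).restrict S4)) := by
    have hI : Integrable ((ι ⁻¹' Metric.closedBall 0 3).indicator (fun _ => C)) μ := by
      rw [integrable_indicator_iff (hι Metric.isClosed_closedBall.measurableSet)]
      exact integrableOn_const hfin.ne
    refine Integrable.mono' (g := fun z : X × ℂ =>
      (ι ⁻¹' Metric.closedBall 0 3).indicator (fun _ => C) z.1 * (1 : ℝ)) ?_ ?_ ?_
    · exact hI.mul_prod (integrable_const (1 : ℝ))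
    · apply Measurable.aestronglyMeasurable
      have h1 : Measurable (fun z : X × ℂ => E (ι z.1)) := hE.comp (hι.comp measurable_fst)
      have h2 : Measurable (fun z : X × ℂ => k z.2) := hk.comp measurable_snd
      have h3 : Measurable (fun z : X × ℂ => Q z.2 (ι z.1)) :=
        hQ.measurable.comp (measurable_snd.prodMk (hι.comp measurable_fst))
      exact h1.mul (h2.mul h3)
    · refine Eventually.of_forall fun z => ?_
      show ‖E (ι z.1) * (k z.2 * Q z.2 (ι z.1))‖ ≤ _
      rw [norm_mul, norm_mul, mul_one]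
      by_cases hz : z.1 ∈ ι ⁻¹' Metric.closedBall 0 3
      · rw [indicator_of_mem hz]
        have h1 := hE1 (ι z.1)
        have h2 := hk1 z.2
        have h3 := hQb z.2 (ι z.1)
        calc ‖E (ι z.1)‖ * (‖k z.2‖ * ‖Q z.2 (ι z.1)‖) ≤ 1 * (1 * C) := by gcongr
          _ = C := by ring
      · rw [indicator_of_notMem hz]
        have h1 : 3 < ‖ι z.1‖ := by
          have : ι z.1 ∉ Metric.closedBall (0 : ℂ) 3 := hz
          rw [mem_closedBall_zero_iff] at this
          exact not_le.mp this
        rw [hQ0 _ _ h1]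
        simp
  calc ∫ x, (E (ι x) * ∫ s in S4, k s * Q s (ι x)) ∂μ
      = ∫ x, (∫ s in S4, E (ι x) * (k s * Q s (ι x))) ∂μ := by
        refine integral_congr_ae (Eventually.of_forall fun x => ?_)
        exact (integral_const_mul _ _).symm
    _ = ∫ s in S4, ∫ x, E (ι x) * (k s * Q s (ι x)) ∂μ := integral_integral_swap h
    _ = ∫ s in S4, k s * ∫ x, E (ι x) * Q s (ι x) ∂μ := by
        refine integral_congr_ae (Eventually.of_forall fun s => ?_)
        show ∫ x, E (ι x) * (k s * Q s (ι x)) ∂μ = k s * ∫ x, E (ι x) * Q s (ι x) ∂μ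
        rw [← integral_const_mul]
        refine integral_congr_ae (Eventually.of_forall fun x => ?_)
        show E (ι x) * (k s * Q s (ι x)) = k s * (E (ι x) * Q s (ι x))
        ring

/-- one variable -/
private lemma one_d (f f' : ℝ → ℂ) (hf : ∀ x, HasDerivAt f (f' x) x) (hc : Continuous f') (b : ℝ)
    (hb : |b| ≤ 4) (h0 : f (-4) = 0) :
    (∫ x in Icc (-4 : ℝ) 4, (open scoped Classical in if x < b then (1 : ℂ) else 0) * f' x) =
      f b := by
  classical
  have hb' := abs_le.mp hb
  have e1 : ∀ x : ℝ, (if x < b then (1 : ℂ) else 0) * f' x = (Iio b).indicator f' x := by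
    intro x
    by_cases hx : x < b
    · rw [if_pos hx, indicator_of_mem (show x ∈ Iio b from hx), one_mul]
    · rw [if_neg hx, indicator_of_notMem (show x ∉ Iio b from hx), zero_mul]
  have e2 : (∫ x in Icc (-4 : ℝ) 4, (if x < b then (1 : ℂ) else 0) * f' x) =
      ∫ x in Icc (-4 : ℝ) 4, (Iio b).indicator f' x := by
    refine integral_congr_ae (Eventually.of_forall fun x => ?_)
    exact e1 x
  have e3 : Icc (-4 : ℝ) 4 ∩ Iio b = Ico (-4 : ℝ) b := by
    ext x
    simp only [mem_inter_iff, mem_Icc, mem_Iio, mem_Ico]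
    constructor
    · rintro ⟨⟨h1, -⟩, h2⟩
      exact ⟨h1, h2⟩
    · rintro ⟨h1, h2⟩
      exact ⟨⟨h1, by linarith [hb'.2]⟩, h2⟩
  have e4 : (∫ x in Icc (-4 : ℝ) 4, (Iio b).indicator f' x) = f b := by
    rw [setIntegral_indicator measurableSet_Iio, e3, integral_Ico_eq_integral_Ioc,
      ← intervalIntegral.integral_of_le hb'.1,
      intervalIntegral.integral_eq_sub_of_hasDerivAt (f := f) (fun x _ => hf x)
        (hc.intervalIntegrable _ _), h0, sub_zero]
  rw [← e4, ← e2]

/-- the integral over the square as an iterated integral -/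
private lemma iter (g : ℂ → ℂ) (hg : Measurable g) (C : ℝ) (hC : ∀ s, ‖g s‖ ≤ C) :
    ∫ s in S4, g s = ∫ x in Icc (-4 : ℝ) 4, ∫ y in Icc (-4 : ℝ) 4, g (x + y * I) := by
  have h1 := (Complex.volume_preserving_equiv_real_prod.symm).setIntegral_preimage_emb
    (MeasurableEquiv.measurableEmbedding _) g S4
  rw [← h1]
  have e1 : (Complex.measurableEquivRealProd.symm : ℝ × ℝ → ℂ) ⁻¹' S4 =
      Icc (-4 : ℝ) 4 ×ˢ Icc (-4 : ℝ) 4 := by
    ext p
    simp only [mem_preimage, mem_prod, mem_Icc]
    show |(Complex.measurableEquivRealProd.symm p).re| ≤ 4 ∧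
      |(Complex.measurableEquivRealProd.symm p).im| ≤ 4 ↔ _
    rw [Complex.measurableEquivRealProd_symm_apply]
    rw [abs_le, abs_le]
  rw [e1, Measure.volume_eq_prod, setIntegral_prod]
  · refine setIntegral_congr_fun measurableSet_Icc fun x _ => ?_
    refine setIntegral_congr_fun measurableSet_Icc fun y _ => ?_
    show g (Complex.measurableEquivRealProd.symm (x, y)) = g (x + y * I)
    congr 1
    rw [Complex.measurableEquivRealProd_symm_apply]
    apply Complex.ext <;> simp
  · refine Measure.integrableOn_of_bounded (M := C) ?_ ?_ ?_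
    · rw [← Measure.volume_eq_prod]
      exact (isCompact_Icc.prod isCompact_Icc).measure_lt_top.ne
    · exact (hg.comp Complex.measurableEquivRealProd.symm.measurable).aestronglyMeasurable
    · exact Eventually.of_forall fun p => hC _

private lemma meas_kp (r : Bool) (a : ℂ) : Measurable (fun s => kp r s a) := by
  classical
  unfold kp
  refine Measurable.ite ?_ measurable_const measurable_const
  have h1 : MeasurableSet {s : ℂ | s.re < a.re} :=
    measurableSet_lt Complex.measurable_re measurable_const
  have h2 : MeasurableSet {s : ℂ | r = true ∨ s.im < a.im} := by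
    by_cases hr : r = true
    · have : {s : ℂ | r = true ∨ s.im < a.im} = univ := by
        ext s
        simp [hr]
      rw [this]
      exact MeasurableSet.univ
    · have : {s : ℂ | r = true ∨ s.im < a.im} = {s : ℂ | s.im < a.im} := by
        ext s
        simp [hr]
      rw [this]
      exact measurableSet_lt Complex.measurable_im measurable_const
  exact h1.inter h2

private lemma norm_kp (r : Bool) (s a : ℂ) : ‖kp r s a‖ ≤ 1 := by
  classical
  unfold kp
  split_ifs
  · simp
  · simp

/-- the function `F` is the integral of `Q` -/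
private lemma stepB {r : Bool} {α G : ℝ} {q Ψ : ℂ → ℂ} {F F₁ Q : ℂ → ℂ → ℂ}
    (hS : Sep r α G q Ψ F F₁ Q) (C : ℝ) (hQb : ∀ s z, ‖Q s z‖ ≤ C) (a t : ℂ) (ha : Rl r a)
    (ha2 : ‖a‖ < 2) : ∫ s in S4, kp r s a * Q s t = F a t := by
  classical
  have hre : |a.re| ≤ 4 := by linarith [Complex.abs_re_le_norm a]
  have him : |a.im| ≤ 4 := by linarith [Complex.abs_im_le_norm a]
  have hmQ : Continuous (fun s => Q s t) := by
    have := hS.cQ.comp (Continuous.prodMk continuous_id (continuous_const (y := t)))
    exact this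
  have hmF : Continuous (fun s => F₁ s t) := by
    have := hS.c1.comp (Continuous.prodMk continuous_id (continuous_const (y := t)))
    exact this
  rw [iter (fun s => kp r s a * Q s t) ((meas_kp r a).mul hmQ.measurable) C ?_]
  swap
  · intro s
    rw [norm_mul]
    calc ‖kp r s a‖ * ‖Q s t‖ ≤ 1 * C := by
          have h1 := norm_kp r s a
          have h2 := hQb s t
          gcongr
      _ = C := one_mul C
  cases r with
  | false =>
    have e1 : ∀ x : ℝ, (∫ y in Icc (-4 : ℝ) 4, kp false (x + y * I) a * Q (x + y * I) t) =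
        (if x < a.re then (1 : ℂ) else 0) * F₁ (x + a.im * I) t := by
      intro x
      have e2 : ∀ y : ℝ, kp false (x + y * I) a * Q (x + y * I) t =
          (if x < a.re then (1 : ℂ) else 0) *
            ((if y < a.im then (1 : ℂ) else 0) * Q (x + y * I) t) := by
        intro y
        have hx : ((x : ℂ) + y * I).re = x := by simp
        have hy : ((x : ℂ) + y * I).im = y := by simp
        unfold kp
        rw [hx, hy]
        by_cases h1 : x < a.re <;> by_cases h2 : y < a.im <;> simp [h1, h2]
      calc (∫ y in Icc (-4 : ℝ) 4, kp false (x + y * I) a * Q (x + y * I) t)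
          = ∫ y in Icc (-4 : ℝ) 4, (if x < a.re then (1 : ℂ) else 0) *
            ((if y < a.im then (1 : ℂ) else 0) * Q (x + y * I) t) := by
            refine setIntegral_congr_fun measurableSet_Icc fun y _ => ?_
            exact e2 y
        _ = (if x < a.re then (1 : ℂ) else 0) * ∫ y in Icc (-4 : ℝ) 4,
            ((if y < a.im then (1 : ℂ) else 0) * Q (x + y * I) t) := integral_const_mul _ _
        _ = _ := by
            congr 1
            refine one_d (fun y : ℝ => F₁ (x + y * I) t) (fun y : ℝ => Q (x + y * I) t)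
              (fun y => (hS.cplx rfl t x y).2) ?_ a.im him ?_
            · exact hmQ.comp (by fun_prop)
            · exact (hS.supp _ t (Or.inr (by simp))).2
    calc (∫ x in Icc (-4 : ℝ) 4, ∫ y in Icc (-4 : ℝ) 4,
          kp false (x + y * I) a * Q (x + y * I) t)
        = ∫ x in Icc (-4 : ℝ) 4, (if x < a.re then (1 : ℂ) else 0) * F₁ (x + a.im * I) t := by
          refine setIntegral_congr_fun measurableSet_Icc fun x _ => ?_
          exact e1 x
      _ = F (a.re + a.im * I) t := by
          refine one_d (fun x : ℝ => F (x + a.im * I) t) (fun x : ℝ => F₁ (x + a.im * I) t)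
            (fun x => (hS.cplx rfl t x a.im).1) ?_ a.re hre ?_
          · exact hmF.comp (by fun_prop)
          · exact (hS.supp _ t (Or.inl (by simp))).1
      _ = F a t := by rw [Complex.re_add_im]
  | true =>
    have hR := hS.real rfl t
    have e1 : ∀ x : ℝ, (∫ y in Icc (-4 : ℝ) 4, kp true (x + y * I) a * Q (x + y * I) t) =
        (if x < a.re then (1 : ℂ) else 0) * (8 * Q x t) := by
      intro x
      have e2 : ∀ y : ℝ, kp true (x + y * I) a * Q (x + y * I) t =
          (if x < a.re then (1 : ℂ) else 0) * Q x t := by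
        intro y
        have hx : ((x : ℂ) + y * I).re = x := by simp
        rw [hR.2 ((x : ℂ) + y * I)]
        unfold kp
        rw [hx]
        by_cases h1 : x < a.re <;> simp [h1]
      calc (∫ y in Icc (-4 : ℝ) 4, kp true (x + y * I) a * Q (x + y * I) t)
          = ∫ y in Icc (-4 : ℝ) 4, (if x < a.re then (1 : ℂ) else 0) * Q x t := by
            refine setIntegral_congr_fun measurableSet_Icc fun y _ => ?_
            exact e2 y
        _ = _ := by
            rw [setIntegral_const]
            have : (volume : Measure ℝ).real (Icc (-4) 4) = 8 := by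
              rw [Measure.real, Real.volume_Icc, ENNReal.toReal_ofReal (by norm_num)]
              norm_num
            rw [this, Complex.real_smul]
            push_cast
            ring
    have haim : a.im = 0 := ha rfl
    calc (∫ x in Icc (-4 : ℝ) 4, ∫ y in Icc (-4 : ℝ) 4,
          kp true (x + y * I) a * Q (x + y * I) t)
        = ∫ x in Icc (-4 : ℝ) 4, (if x < a.re then (1 : ℂ) else 0) * (8 * Q x t) := by
          refine setIntegral_congr_fun measurableSet_Icc fun x _ => ?_
          exact e1 x
      _ = F (a.re : ℂ) t := by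
          refine one_d (fun x : ℝ => F x t) (fun x : ℝ => 8 * Q x t)
            (fun x => hR.1 x) ?_ a.re hre ?_
          · have : Continuous (fun x : ℝ => Q x t) := hmQ.comp Complex.continuous_ofReal
            fun_prop
          · exact (hS.supp _ t (Or.inl (by simp))).1
      _ = F a t := by
          congr 1
          apply Complex.ext <;> simp [haim]

private lemma meas_lo (α : ℝ) : Measurable (lo α) := by
  unfold lo
  fun_prop

theorem pf_LS (hLO : M_LO) (hSB : Pool.Agent.H31.SW.W_SB) : M_LS := by
  intro q Ψ hq hΨ N C r α G F F₁ Q hα hα1 hG hGα hS hA c a ζ hc ha hζ ha1 ha2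
  have hα0 : (α : ℂ) ≠ 0 := by exact_mod_cast hα.ne'
  have ha0 : a ≠ 0 := by
    intro h
    rw [h, norm_zero] at ha1
    linarith
  set b : ℂ := a / α with hb
  have hbn : ‖b‖ = ‖a‖ / α := by
    rw [hb, norm_div, Complex.norm_real, Real.norm_eq_abs, abs_of_pos hα]
  have hb1 : 1 ≤ ‖b‖ := by
    rw [hbn, le_div_iff₀ hα]
    linarith
  have hb2 : ‖b‖ < 2 := by
    rw [hbn, div_lt_iff₀ hα]
    exact ha2
  have hb0 : b ≠ 0 := by
    intro h
    rw [h, norm_zero] at hb1
    linarith
  have hbR : Rl r b := by
    intro hr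
    rw [hb, Complex.div_ofReal_im, ha hr, zero_div]
  have hαb : (α : ℂ) * b = a := by
    rw [hb]
    field_simp
  -- bounds for `Q`
  have hQb : ∀ s z, ‖Q s z‖ ≤ |C| := by
    intro s z
    obtain ⟨t₀, -, -, ht, hD⟩ := hA s
    have h1 : ‖Q s z‖ ≤ ind t₀ (1 / 2500) C z := by
      cases N with
      | zero => exact hD.2 z (mem_univ z)
      | succ n => exact hD.1 z (mem_univ z)
    refine h1.trans ?_
    unfold ind
    split_ifs
    · exact le_abs_self C
    · exact abs_nonneg C
  have hQ0 : ∀ s z, 3 < ‖z‖ → Q s z = 0 := by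
    intro s z hz
    obtain ⟨t₀, -, -, ht, hD⟩ := hA s
    have h1 : ‖Q s z‖ ≤ ind t₀ (1 / 2500) C z := by
      cases N with
      | zero => exact hD.2 z (mem_univ z)
      | succ n => exact hD.1 z (mem_univ z)
    have h2 : ¬ ‖z - t₀‖ ≤ 1 / 2500 := by
      intro h
      have h3 : ‖z‖ ≤ ‖z - t₀‖ + ‖t₀‖ := by
        have := norm_add_le (z - t₀) t₀
        rwa [sub_add_cancel] at this
      linarith
    unfold ind at h1
    rw [if_neg h2] at h1
    exact norm_le_zero_iff.mp h1
  -- step A
  have hA1 : ∀ t : ℂ, ((‖b‖ ^ dg r : ℝ) : ℂ) *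
      (EE (ζ * (b * t)) * G3 (q r) (Ψ r) G c a (b * t)) =
      EE (a * ζ / α * t + c * lo α t) * F b t := by
    intro t
    have hv := hS.val b t hbR hb1 hb2
    rw [hv]
    have em : a * ζ / α * t = ζ * (b * t) := by
      rw [hb]
      ring
    rw [em, EE_add]
    by_cases hz : q r (b * t + a - 1) = 0
    · unfold G3 GG
      rw [hαb, hz]
      simp
    · have h1 : ‖b * t + a - 1‖ ≤ 1 / 10000 := by
        by_contra h
        exact hz (hq.2 r _ (not_le.mp h))
      have h2 : ‖b * t - 1‖ ≤ 1 / 1000 := by
        have h3 : ‖b * t - 1‖ ≤ ‖b * t + a - 1‖ + ‖a‖ := by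
          have := norm_sub_le (b * t + a - 1) a
          have e : b * t + a - 1 - a = b * t - 1 := by ring
          rwa [e] at this
        linarith
      have h4 := hLO.2.1 α b t hα hα1 (by linarith) h2
      rw [hαb] at h4
      have h5 : EE (c * lo α t) = EE (c * Complex.log (b * t + a)) *
          EE (-(c * Complex.log (b * t - a))) := by
        rw [← EE_add, ← h4]
        congr 1
        ring
      unfold G3 GG
      rw [hαb, h4, map_mul, EE_conj, h5]
      ring
  have hStep : FF r (G3 (q r) (Ψ r) G c a) ζ =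
      itg r (fun t => EE (a * ζ / α * t + c * lo α t) * ∫ s in S4, kp r s b * Q s t) := by
    unfold FF
    rw [hSB r b _ hb0 hbR]
    have e1 : (fun t : ℂ => EE (a * ζ / α * t + c * lo α t) * ∫ s in S4, kp r s b * Q s t) =
        fun t => ((‖b‖ ^ dg r : ℝ) : ℂ) *
          (EE (ζ * (b * t)) * G3 (q r) (Ψ r) G c a (b * t)) := by
      funext t
      rw [hA1 t, stepB hS |C| hQb b t hbR hb2]
    rw [e1]
    cases r with
    | true =>
      simp only [itg, if_true]
      exact (integral_const_mul _ _).symm
    | false =>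
      simp only [itg, Bool.false_eq_true, if_false]
      rw [integral_const_mul]
      ring
  rw [hStep]
  have hmE : Measurable (fun t : ℂ => EE (a * ζ / α * t + c * lo α t)) :=
    cont_EE.measurable.comp (by
      have := meas_lo α
      fun_prop)
  cases r with
  | true =>
    simp only [itg, El, if_true]
    refine fub (volume : Measure ℝ) (fun x : ℝ => (x : ℂ)) Complex.measurable_ofReal ?_
      (fun t : ℂ => EE (a * ζ / α * t + c * lo α t)) (fun s => kp true s b) hmE
      (fun z => (norm_EE _).le) (meas_kp _ _) (fun s => norm_kp _ _ _) Q hS.cQ |C| hQb hQ0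
    have h : (fun x : ℝ => (x : ℂ)) ⁻¹' Metric.closedBall 0 3 ⊆ Metric.closedBall (0 : ℝ) 3 := by
      intro x hx
      rw [mem_preimage, mem_closedBall_zero_iff, Complex.norm_real] at hx
      rw [mem_closedBall_zero_iff]
      exact hx
    exact lt_of_le_of_lt (measure_mono h) measure_closedBall_lt_top
  | false =>
    simp only [itg, El, Bool.false_eq_true, if_false]
    have h := fub (volume : Measure ℂ) (fun x : ℂ => x) measurable_id
      (by exact measure_closedBall_lt_top)
      (fun t : ℂ => EE (a * ζ / α * t + c * lo α t)) (fun s => kp false s b) hmE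
      (fun z => (norm_EE _).le) (meas_kp _ _) (fun s => norm_kp _ _ _) Q hS.cQ |C| hQb hQ0
    rw [h, ← integral_const_mul]
    refine integral_congr_ae (Eventually.of_forall fun s => ?_)
    show 2 * (kp false s b * _) = kp false s b * (2 * _)
    ring

end Pool.Agent.H39.TMB.LS
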